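import Pool.Agent.Q137.GL.All

/-!
# Homeomorphisms preserving `C¹` curves are differentiable almost everywhere

Let `f` be a homeomorphism of a smooth surface which maps `C¹` curves onto `C¹` curves. In charts, `f`
maps segments of horizontal and vertical lines (they are parts of `C¹` curves) into `C¹` curves, so it
is differentiable almost everywhere on them (monotone functions); the partial derivatives exist almost
everywhere, and by the argument of Gehring and Lehto (density points and the maximum principle for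
open maps) `f` is differentiable almost everywhere.
-/

set_option autoImplicit false

open MeasureTheory Set
open scoped Manifold ContDiff

namespace Pool.Agent.Results.MP_bd3523_gt.MeasureZeroNonDifferentiability

/-- A `C¹` curve in the surface `S` (modelled on `ℂ = ℝ²`): the image of an injective `C¹` map of the
circle `ℝ/ℤ` with nowhere vanishing derivative. -/
def IsC1Curve (S : Type) [TopologicalSpace S] [ChartedSpace ℂ S] (C : Set S) : Prop :=
  ∃ γ : ℝ → S, ContMDiff 𝓘(ℝ, ℝ) 𝓘(ℝ, ℂ) 1 γ ∧ (∀ t, γ (t + 1) = γ t) ∧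
    (∀ t, mfderiv 𝓘(ℝ, ℝ) 𝓘(ℝ, ℂ) γ t ≠ 0) ∧ InjOn γ (Ico 0 1) ∧ C = range γ

/-- `Homeo¹(S)`: the homeomorphisms `f` such that `f` and `f⁻¹` map every `C¹` curve onto a `C¹`
curve. -/
def Homeo1 (S : Type) [TopologicalSpace S] [ChartedSpace ℂ S] : Set (S ≃ₜ S) :=
  {f | (∀ C, IsC1Curve S C → IsC1Curve S (f '' C)) ∧ ∀ C, IsC1Curve S C → IsC1Curve S (f.symm '' C)}

/-- For every smooth surface `S` and every homeomorphism `f` of `S` that maps every `C¹` curve onto a
`C¹` curve, in particular for every `f ∈ Homeo¹(S)`, the set of the points at which `f` is not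
differentiable has measure zero: its image in every smooth chart is a Lebesgue null set. -/
theorem result : ∀ (S : Type) [TopologicalSpace S] [ChartedSpace ℂ S] [IsManifold 𝓘(ℝ, ℂ) ∞ S],
    (∀ f : S ≃ₜ S, (∀ C, IsC1Curve S C → IsC1Curve S (f '' C)) →
      ∀ φ ∈ IsManifold.maximalAtlas 𝓘(ℝ, ℂ) ∞ S,
        volume (φ '' (φ.source ∩ {p | ¬ MDifferentiableAt 𝓘(ℝ, ℂ) 𝓘(ℝ, ℂ) f p})) = 0) ∧
    ∀ f ∈ Homeo1 S, ∀ φ ∈ IsManifold.maximalAtlas 𝓘(ℝ, ℂ) ∞ S,
      volume (φ '' (φ.source ∩ {p | ¬ MDifferentiableAt 𝓘(ℝ, ℂ) 𝓘(ℝ, ℂ) f p})) = 0 := by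
  intro S _ _ _
  have h := Q137.GL.surfaceTheorem S
  exact ⟨h, fun f hf => h f hf.1⟩

end Pool.Agent.Results.MP_bd3523_gt.MeasureZeroNonDifferentiability
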