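import Pool.Agent.Q137.HD.All

/-!
# A homeomorphism of the plane that preserves `C¹` curves and is not differentiable at uncountably many points

`f(z) = z + ∫ g(|z - w|) (z - w) dμ(w)`, `g(r) = log (1 + 1/r)`, where `μ` is a probability measure on a
Cantor set `E` so thin that the potential `U(z) = ∫ g(|z - w|) dμ(w)` is infinite on `E`. Off `E` the
derivative of `f` is `(1 + U) + B` with `B` bounded and continuous, so after division by `1 + U` it
extends continuously by the identity to `E`; images of `C¹` curves are `C¹` curves after a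
reparametrisation by `∫ (1 + U)`. The inverse of `f` is `C¹` with derivative zero on `f(E)`.
-/

set_option autoImplicit false

namespace Pool.Agent.Results.MP_bd3523_gt.UncountableNonDifferentiability

/-- A `C¹` curve in the plane `ℝ² = ℂ`: the image of an injective `C¹` map of the circle `ℝ/ℤ` with
nowhere vanishing derivative. -/
def IsC1Curve (C : Set ℂ) : Prop :=
  ∃ γ : ℝ → ℂ, ContDiff ℝ 1 γ ∧ (∀ t, γ (t + 1) = γ t) ∧ (∀ t, deriv γ t ≠ 0) ∧
    Set.InjOn γ (Set.Ico 0 1) ∧ C = Set.range γ

/-- `Homeo¹(ℝ²)`: the homeomorphisms `f` such that `f` and `f⁻¹` map every `C¹` curve onto a `C¹`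
curve. -/
def Homeo1 : Set (ℂ ≃ₜ ℂ) :=
  {f | (∀ C, IsC1Curve C → IsC1Curve (f '' C)) ∧ ∀ C, IsC1Curve C → IsC1Curve (f.symm '' C)}

/-- There is `f ∈ Homeo¹(ℝ²)` whose non-differentiable set is uncountable (and compact), and whose
inverse is continuously differentiable. -/
theorem result : ∃ f ∈ Homeo1, ¬ {z : ℂ | ¬ DifferentiableAt ℝ f z}.Countable ∧
    IsCompact {z : ℂ | ¬ DifferentiableAt ℝ f z} ∧ ContDiff ℝ 1 f.symm := by
  obtain ⟨h, h1, h2, h3, h4, h5⟩ := Q137.HD.mainTheorem
  exact ⟨h, ⟨h1, h2⟩, h5, h4, h3⟩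

end Pool.Agent.Results.MP_bd3523_gt.UncountableNonDifferentiability
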